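import Mathlib
import Pool.Agent.TH646.AT.Main

set_option autoImplicit false

namespace Pool.Agent.Results.MP_8b7eba_nt.AlmostPrimeTwists

/-- rational points of the quadratic twist by `t` of `y ^ 2 = x ^ 3 + A x + B`, in the model
`y ^ 2 = x ^ 3 + A t ^ 2 x + B t ^ 3` -/
def TwistPoints (A B t : ℤ) : Set (ℚ × ℚ) :=
  {p | p.2 ^ 2 = p.1 ^ 3 + A * (t : ℚ) ^ 2 * p.1 + B * (t : ℚ) ^ 3}

/-- for every curve `y ^ 2 = x ^ 3 + A x + B`, every class prime to `M` and both signs: squarefree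
`d` with boundedly many prime factors, all of them large, in all intervals `[X, X + X ^ θ]`,
`θ > 7 / 8`, for which the twist by `ε d` has infinitely many rational points -/
theorem result (A B : ℤ) (hΔ : 4 * A ^ 3 + 27 * B ^ 2 ≠ 0) (M a : ℕ) (hM : 0 < M)
    (ha : a.Coprime M) (ε : ℤ) (hε : ε = 1 ∨ ε = -1) (θ : ℝ) (hθ : 7 / 8 < θ) (hθ1 : θ ≤ 1) :
    ∃ R : ℕ, 0 < R ∧ ∃ X₀ : ℝ, ∀ X : ℝ, X₀ ≤ X →
      X ^ (θ - 1 / 2) / Real.log X ^ 9 ≤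
        (({d : ℕ | X ≤ d ∧ (d : ℝ) ≤ X + X ^ θ ∧ d ≡ a [MOD M] ∧ Squarefree d ∧
          (TwistPoints A B (ε * d)).Infinite ∧ d.primeFactors.card ≤ R ∧
          ∀ p : ℕ, p.Prime → p ∣ d → X ^ (1 / (R : ℝ)) < p}.ncard : ℕ) : ℝ) := by
  have hε2 : ε ^ 2 = 1 := by rcases hε with rfl | rfl <;> norm_num
  have hΔ' : 4 * A ^ 3 + 27 * (ε * B) ^ 2 ≠ 0 := by
    rw [mul_pow, hε2, one_mul]; exact hΔ
  obtain ⟨R₀, h⟩ := Pool.Agent.TH646.AT.main hΔ' hM hθ hθ1 a ha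
  refine ⟨R₀ + 1, by omega, ?_⟩
  obtain ⟨X₀, hX₀⟩ := h (R₀ + 1) (by omega)
  refine ⟨X₀, fun X hX => ?_⟩
  have h1 := hX₀ X hX
  have key : ∀ d : ℕ, Pool.Agent.TH646.AT.Inf A (ε * B) d ↔
      (TwistPoints A B (ε * d)).Infinite := by
    intro d
    unfold Pool.Agent.TH646.AT.Inf TwistPoints
    have hq : (ε : ℚ) ^ 2 = 1 := by exact_mod_cast hε2
    have e1 : ((ε * (d : ℤ) : ℤ) : ℚ) ^ 2 = (d : ℚ) ^ 2 := by
      push_cast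
      rw [mul_pow, hq, one_mul]
    have e2 : ((ε * (d : ℤ) : ℤ) : ℚ) ^ 3 = ε * (d : ℚ) ^ 3 := by
      push_cast
      have : (ε * (d : ℚ)) ^ 3 = ε ^ 2 * ε * (d : ℚ) ^ 3 := by ring
      rw [this, hq, one_mul]
    have e3 : {p : ℚ × ℚ | p.2 ^ 2 = p.1 ^ 3 + A * (d : ℚ) ^ 2 * p.1 +
        ((ε * B : ℤ) : ℚ) * (d : ℚ) ^ 3} =
        {p : ℚ × ℚ | p.2 ^ 2 = p.1 ^ 3 + A * ((ε * (d : ℤ) : ℤ) : ℚ) ^ 2 * p.1 +
          B * ((ε * (d : ℤ) : ℤ) : ℚ) ^ 3} := by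
      ext p
      simp only [Set.mem_setOf_eq]
      rw [e1, e2]
      push_cast
      constructor
      · intro h; rw [h]; ring
      · intro h; rw [h]; ring
    rw [e3]
  have h2 : {d : ℕ | X ≤ d ∧ (d : ℝ) ≤ X + X ^ θ ∧ d ≡ a [MOD M] ∧ Squarefree d ∧
      Pool.Agent.TH646.AT.Inf A (ε * B) d ∧ d.primeFactors.card ≤ R₀ + 1 ∧
      ∀ p : ℕ, p.Prime → p ∣ d → X ^ (1 / ((R₀ + 1 : ℕ) : ℝ)) < p} =
      {d : ℕ | X ≤ d ∧ (d : ℝ) ≤ X + X ^ θ ∧ d ≡ a [MOD M] ∧ Squarefree d ∧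
          (TwistPoints A B (ε * d)).Infinite ∧ d.primeFactors.card ≤ R₀ + 1 ∧
          ∀ p : ℕ, p.Prime → p ∣ d → X ^ (1 / ((R₀ + 1 : ℕ) : ℝ)) < p} := by
    ext d
    simp only [Set.mem_setOf_eq, key d]
  rwa [h2] at h1

end Pool.Agent.Results.MP_8b7eba_nt.AlmostPrimeTwists
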